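import Pool.Agent.SolidAngle.Final

/-!
# The rescaled solid angle of a random simplicial cone tends to zero in distribution

Under the size biased law (tilting by `2 ^ d * alpha_d`, of mean one) the squared norm of the sum of
the generators (taken Gaussian) has exponentially smaller moments than under the original law.
Hence the two laws separate exponentially fast and `2 ^ d * alpha_d` tends to zero in probability.
-/

set_option autoImplicit false
open MeasureTheory Filter Topology Matrix

namespace Pool.Agent.Results.MP_9a1bf0_pr.LimitIsZero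

/-- `μ` is a rotation invariant probability measure on the unit sphere of `ℝ^d`. -/
def IsUniformOnSphere {d : ℕ} (μ : Measure (Fin d → ℝ)) : Prop :=
  IsProbabilityMeasure μ ∧ μ {x | ∑ i, x i ^ 2 = 1} = 1 ∧
    ∀ O : Matrix (Fin d) (Fin d) ℝ, Oᵀ * O = 1 → μ.map (fun x => O *ᵥ x) = μ

/-- The positive hull of `u_1, …, u_d`. -/
def pos {d : ℕ} (u : Fin d → Fin d → ℝ) : Set (Fin d → ℝ) :=
  {y | ∃ l : Fin d → ℝ, (∀ i, 0 ≤ l i) ∧ y = ∑ i, l i • u i}

/-- `E f (2 ^ d * α_d)`, where `α_d = μ (pos (U_1, …, U_d))` and `U_1, …, U_d` are independent with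
law `μ`, the uniform probability on the unit sphere of `ℝ^d`. -/
noncomputable def expectation {d : ℕ} (μ : Measure (Fin d → ℝ)) (f : ℝ → ℝ) : ℝ :=
  ∫ u : Fin d → Fin d → ℝ, f (2 ^ d * (μ (pos u)).toReal) ∂(Measure.pi fun _ : Fin d => μ)

/-- For `σ d` the (unique) rotation invariant probability on the unit sphere of `ℝ^d`, the random
variable `2 ^ d * α_d` converges in distribution to the constant `0`; hence it does not converge in
distribution to a random variable of mean one. -/
theorem result : ∃ σ : (d : ℕ) → Measure (Fin d → ℝ),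
    (∀ d, 1 ≤ d → IsUniformOnSphere (σ d) ∧ ∀ μ, IsUniformOnSphere μ → μ = σ d) ∧
    (∀ f : ℝ → ℝ, Continuous f → (∃ M, ∀ x, |f x| ≤ M) →
      Tendsto (fun d => expectation (σ d) f) atTop (𝓝 (f 0))) ∧
    ¬ ∃ ν : Measure ℝ, IsProbabilityMeasure ν ∧
      (∀ f : ℝ → ℝ, Continuous f → (∃ M, ∀ x, |f x| ≤ M) →
        Tendsto (fun d => expectation (σ d) f) atTop (𝓝 (∫ x, f x ∂ν))) ∧
      ∫ x, x ∂ν = 1 := by
  refine ⟨Pool.Agent.SolidAngle.tau, fun d hd => ⟨Pool.Agent.SolidAngle.tau_uniform hd,
    fun μ hμ => Pool.Agent.SolidAngle.uniform_unique hμ (Pool.Agent.SolidAngle.tau_uniform hd)⟩,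
    fun f hf hb => ?_, ?_⟩
  · exact Pool.Agent.SolidAngle.weak_limit
      (fun d hd => Pool.Agent.SolidAngle.tau_uniform hd) f hf hb
  · exact Pool.Agent.SolidAngle.no_mean_one (fun d hd => Pool.Agent.SolidAngle.tau_uniform hd)

end Pool.Agent.Results.MP_9a1bf0_pr.LimitIsZero
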